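import Mathlib.Analysis.SpecialFunctions.PolarCoord
import Mathlib.Analysis.Calculus.ContDiff.RCLike
import Mathlib.Analysis.Calculus.Deriv.Support
import Mathlib.Analysis.Complex.RealDeriv
import Mathlib.Analysis.SpecialFunctions.Trigonometric.Deriv
import Mathlib.MeasureTheory.Integral.IntegralEqImproper
import Mathlib.MeasureTheory.Group.Integral
import Mathlib.MeasureTheory.Integral.Gamma
import Mathlib.Analysis.SpecialFunctions.Gaussian.GaussianIntegral
import Mathlib.Analysis.Calculus.BumpFunction.FiniteDimension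
import Mathlib.Analysis.SpecialFunctions.ExpDeriv
import Mathlib.Analysis.Calculus.ParametricIntegral
import Mathlib.Analysis.Calculus.FDeriv.Measurable
import Mathlib.Analysis.Complex.Schwarz
import Mathlib.Analysis.Calculus.FDeriv.Pi

-- ======== part 0: formerly Pool.Agent.MP_8ac6f3_ag.h12.Pomp
section MrgPart0

/-!
The Cauchy-Pompeiu formula for compactly supported functions of class one (proof copied from the
file of helper87 on MP_ecf4b9_an, to keep the imports small).
-/

open MeasureTheory Set Complex Filter Topology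
open scoped ComplexConjugate

namespace Pool.Agent.MP_8ac6f3_ag.H12

/-- the antiholomorphic Wirtinger derivative -/
noncomputable def dbar (φ : ℂ → ℂ) (x : ℂ) : ℂ := (fderiv ℝ φ x 1 + I * fderiv ℝ φ x I) / 2

lemma clm_apply_eq {E : Type*} [NormedAddCommGroup E] [NormedSpace ℝ E] (L : ℂ →L[ℝ] E) (v : ℂ) :
    L v = v.re • L 1 + v.im • L I := by
  rw [← map_smul, ← map_smul, ← map_add]
  congr 1
  apply Complex.ext <;> simp

lemma continuous_dbar {φ : ℂ → ℂ} (hφ : ContDiff ℝ 1 φ) : Continuous (dbar φ) := by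
  have := hφ.continuous_fderiv (by norm_num)
  unfold dbar
  fun_prop

lemma hasCompactSupport_dbar {φ : ℂ → ℂ} (hc : HasCompactSupport φ) : HasCompactSupport (dbar φ) := by
  refine (hc.fderiv (𝕜 := ℝ)).mono fun x hx => ?_
  intro h
  apply hx
  simp [dbar, h]

lemma integrable_dbar {φ : ℂ → ℂ} (hφ : ContDiff ℝ 1 φ) (hc : HasCompactSupport φ) :
    Integrable (dbar φ) :=
  (continuous_dbar hφ).integrable_of_hasCompactSupport (hasCompactSupport_dbar hc)

/-- the unit vector of angle `θ` -/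
noncomputable def ee (θ : ℝ) : ℂ := Real.cos θ + Real.sin θ * I

lemma norm_ee (θ : ℝ) : ‖ee θ‖ = 1 := by
  unfold ee
  rw [Complex.ofReal_cos, Complex.ofReal_sin, Complex.norm_cos_add_sin_mul_I]

lemma continuous_ee : Continuous ee := by unfold ee; fun_prop

lemma hasDerivAt_ee (θ : ℝ) : HasDerivAt ee (I * ee θ) θ := by
  have h := ((Real.hasDerivAt_cos θ).ofReal_comp).add
    (((Real.hasDerivAt_sin θ).ofReal_comp).mul_const I)
  refine h.congr_deriv ?_
  unfold ee
  push_cast
  linear_combination (-Complex.sin θ) * I_mul_I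

theorem pompeiu_zero {φ : ℂ → ℂ} (hφ : ContDiff ℝ 1 φ) (hc : HasCompactSupport φ) :
    ∫ x, dbar φ x * x⁻¹ = -Real.pi * φ 0 := by
  have hD := hφ.continuous_fderiv (by norm_num)
  have hd := hφ.differentiable (by norm_num)
  obtain ⟨R, hR, hR0⟩ := (hc.fderiv (𝕜 := ℝ)).exists_pos_le_norm
  obtain ⟨R', hR', hR0'⟩ := hc.exists_pos_le_norm
  have hce := continuous_ee
  have hn : ∀ (r θ : ℝ), 0 ≤ r → ‖(r : ℂ) * ee θ‖ = r := fun r θ hr => by
    rw [norm_mul, norm_ee, mul_one, Complex.norm_real, Real.norm_eq_abs, abs_of_nonneg hr]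
  have hint : ∀ w : ℝ → ℂ, Continuous w → IntegrableOn
      (fun p : ℝ × ℝ => fderiv ℝ φ (p.1 * ee p.2) (w p.2)) (Ioi 0 ×ˢ Ioo (-Real.pi) Real.pi)
      (volume.prod volume) := by
    intro w hw
    have h1 : IntegrableOn (fun p : ℝ × ℝ => fderiv ℝ φ (p.1 * ee p.2) (w p.2))
        (Icc 0 R ×ˢ Icc (-Real.pi) Real.pi) (volume.prod volume) :=
      ContinuousOn.integrableOn_compact (isCompact_Icc.prod isCompact_Icc)
        (Continuous.continuousOn (by fun_prop))
    refine h1.of_forall_sdiff_eq_zero (measurableSet_Ioi.prod measurableSet_Ioo) fun p hp => ?_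
    have h2 : R ≤ p.1 := by
      by_contra h3
      exact hp.2 ⟨⟨le_of_lt hp.1.1, (not_le.1 h3).le⟩, Ioo_subset_Icc_self hp.1.2⟩
    rw [hR0 _ (by rw [hn _ _ (le_of_lt hp.1.1)]; exact h2)]
    simp
  have i1 := hint ee hce
  have i2 := hint (fun θ => I * ee θ) (by fun_prop)
  have a1 : ∫ p in Ioi (0 : ℝ) ×ˢ Ioo (-Real.pi) Real.pi, fderiv ℝ φ (p.1 * ee p.2) (ee p.2)
      ∂(volume.prod volume) = -(2 * Real.pi) * φ 0 := by
    have i1' := i1
    rw [IntegrableOn, ← Measure.prod_restrict] at i1'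
    rw [← Measure.prod_restrict, integral_prod_symm _ i1']
    have : ∀ θ : ℝ, ∫ r in Ioi (0 : ℝ), fderiv ℝ φ (r * ee θ) (ee θ) = -φ 0 := by
      intro θ
      have b1 : ∀ r : ℝ, HasDerivAt (fun r : ℝ => φ (r * ee θ)) (fderiv ℝ φ (r * ee θ) (ee θ)) r := by
        intro r
        have c1 : HasDerivAt (fun r : ℝ => (r : ℂ) * ee θ) (ee θ) r := by
          simpa using ((hasDerivAt_id r).ofReal_comp).mul_const (ee θ)
        exact (hd _).hasFDerivAt.comp_hasDerivAt r c1
      have b2 : IntegrableOn (fun r : ℝ => fderiv ℝ φ (r * ee θ) (ee θ)) (Ioi 0) := by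
        have c1 : IntegrableOn (fun r : ℝ => fderiv ℝ φ (r * ee θ) (ee θ)) (Icc 0 R) :=
          Continuous.integrableOn_Icc (by fun_prop)
        refine c1.of_forall_sdiff_eq_zero measurableSet_Ioi fun r hr => ?_
        have h2 : R ≤ r := by
          by_contra h3
          exact hr.2 ⟨le_of_lt hr.1, (not_le.1 h3).le⟩
        rw [hR0 _ (by rw [hn _ _ (le_of_lt hr.1)]; exact h2)]
        simp
      have b3 : Tendsto (fun r : ℝ => φ (r * ee θ)) atTop (𝓝 0) := by
        refine tendsto_const_nhds.congr' ?_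
        filter_upwards [eventually_ge_atTop R'] with r hr
        rw [hR0' _ (by rw [hn _ _ (hR'.le.trans hr)]; exact hr)]
      simpa using integral_Ioi_of_hasDerivAt_of_tendsto' (fun r _ => b1 r) b2 b3
    simp only [this, integral_const, Measure.real, Measure.restrict_apply MeasurableSet.univ,
      univ_inter, Real.volume_Ioo]
    rw [ENNReal.toReal_ofReal (by linarith [Real.pi_pos]), real_smul]
    push_cast
    ring
  have a2 : ∫ p in Ioi (0 : ℝ) ×ˢ Ioo (-Real.pi) Real.pi, fderiv ℝ φ (p.1 * ee p.2) (I * ee p.2)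
      ∂(volume.prod volume) = 0 := by
    rw [setIntegral_prod _ i2]
    refine setIntegral_eq_zero_of_forall_eq_zero fun r hr => ?_
    have hr0 : (r : ℝ) ≠ 0 := ne_of_gt hr
    have b1 : ∀ θ : ℝ, HasDerivAt (fun θ : ℝ => r⁻¹ • φ (r * ee θ))
        (fderiv ℝ φ (r * ee θ) (I * ee θ)) θ := by
      intro θ
      have c1 := ((hd _).hasFDerivAt.comp_hasDerivAt θ
        ((hasDerivAt_ee θ).const_mul (r : ℂ))).const_smul r⁻¹
      refine c1.congr_deriv ?_
      rw [← real_smul (z := I * ee θ), map_smul, smul_smul, inv_mul_cancel₀ hr0, one_smul]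
    rw [← integral_Ioc_eq_integral_Ioo,
      ← intervalIntegral.integral_of_le (by linarith [Real.pi_pos]),
      intervalIntegral.integral_eq_sub_of_hasDerivAt (fun θ _ => b1 θ)
        (Continuous.intervalIntegrable (by fun_prop) _ _)]
    simp [ee]
  rw [← Complex.integral_comp_polarCoord_symm, polarCoord_target, Measure.volume_eq_prod,
    setIntegral_congr_fun (measurableSet_Ioi.prod measurableSet_Ioo)
      (g := fun p : ℝ × ℝ => (fderiv ℝ φ (p.1 * ee p.2) (ee p.2) +
        I * fderiv ℝ φ (p.1 * ee p.2) (I * ee p.2)) / 2),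
    integral_div, integral_add i1 (i2.const_mul I), integral_const_mul, a1, a2]
  · ring
  · intro p hp
    have hr0 : (p.1 : ℂ) ≠ 0 := by exact_mod_cast ne_of_gt hp.1
    have e0 : Complex.polarCoord.symm p = p.1 * ee p.2 := by simp [ee]
    have e1 : (ee p.2)⁻¹ = Real.cos p.2 - Real.sin p.2 * I := by
      refine inv_eq_of_mul_eq_one_right ?_
      unfold ee
      have : (Real.cos p.2 : ℂ) ^ 2 + (Real.sin p.2 : ℂ) ^ 2 = 1 := by
        exact_mod_cast Real.cos_sq_add_sin_sq p.2
      linear_combination this - (Real.sin p.2 : ℂ) ^ 2 * I_mul_I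
    simp only [e0]
    rw [clm_apply_eq _ (ee p.2), clm_apply_eq _ (I * ee p.2), mul_inv, e1, dbar]
    simp only [ee, real_smul, add_re, ofReal_re, mul_re, I_re, mul_zero, ofReal_im, I_im, mul_one,
      sub_self, add_zero, add_im, mul_im, zero_add, zero_mul, one_mul, zero_sub, ofReal_neg]
    field_simp
    linear_combination (-(Real.sin p.2 : ℂ) *
      fderiv ℝ φ (p.1 * (Real.cos p.2 + Real.sin p.2 * I)) I) * I_mul_I

theorem pompeiu {φ : ℂ → ℂ} (hφ : ContDiff ℝ 1 φ) (hc : HasCompactSupport φ) (y : ℂ) :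
    ∫ x, dbar φ x * (x - y)⁻¹ = -Real.pi * φ y := by
  have h1 := pompeiu_zero (φ := fun x => φ (x + y)) (hφ.comp (by fun_prop))
    (hc.comp_homeomorph (Homeomorph.addRight y))
  rw [zero_add] at h1
  rw [← h1, ← integral_add_right_eq_self _ y]
  congr 1
  ext x
  simp only [dbar, fderiv_comp_add_right, add_sub_cancel_right]

end Pool.Agent.MP_8ac6f3_ag.H12

end MrgPart0

-- ======== part 1: formerly Pool.Agent.MP_8ac6f3_ag.h12.One
section MrgPart1

/-! A weighted reproducing kernel in one complex variable. -/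

open MeasureTheory Set Complex Filter Topology Metric
open scoped ComplexConjugate

namespace Pool.Agent.MP_8ac6f3_ag.H12

lemma dbar_mul {f g : ℂ → ℂ} {z : ℂ} (hf : DifferentiableAt ℝ f z) (hg : DifferentiableAt ℝ g z) :
    dbar (fun w => f w * g w) z = dbar f z * g z + f z * dbar g z := by
  unfold dbar
  rw [fderiv_fun_mul hf hg]
  simp only [add_apply, smul_apply, smul_eq_mul]
  ring

lemma dbar_congr {f g : ℂ → ℂ} {z : ℂ} (h : f =ᶠ[𝓝 z] g) : dbar f z = dbar g z := by
  unfold dbar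
  rw [h.fderiv_eq]

lemma dbar_const (c z : ℂ) : dbar (fun _ => c) z = 0 := by simp [dbar]

lemma norm_dbar_le (f : ℂ → ℂ) (z : ℂ) : ‖dbar f z‖ ≤ ‖fderiv ℝ f z‖ := by
  have h1 := (fderiv ℝ f z).le_opNorm 1
  have h2 := (fderiv ℝ f z).le_opNorm I
  have h3 := norm_add_le (fderiv ℝ f z 1) (I * fderiv ℝ f z I)
  rw [norm_mul, norm_I, one_mul] at h3
  rw [norm_one, mul_one] at h1
  rw [norm_I, mul_one] at h2
  rw [dbar, norm_div, Complex.norm_ofNat]
  linarith

/-- the exponential factor -/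
noncomputable def ex (l : ℝ) (z w : ℂ) : ℂ := exp (l * conj w * (z - w))

lemma ex_smooth (l : ℝ) (z : ℂ) : ContDiff ℝ 1 (ex l z) := by
  unfold ex
  have h : ContDiff ℝ 1 (fun w : ℂ => conj w) := conjCLE.contDiff
  exact ((contDiff_const.mul h).mul (contDiff_const.sub contDiff_id)).cexp

lemma dbar_ex (l : ℝ) (z w : ℂ) : dbar (ex l z) w = l * (z - w) * ex l z w := by
  have h1 : HasFDerivAt (fun w : ℂ => conj w) (conjCLE : ℂ →L[ℝ] ℂ) w := conjCLE.hasFDerivAt
  have h2 := (((hasFDerivAt_const (l : ℂ) w).mul h1).mul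
    ((hasFDerivAt_const z w).sub (hasFDerivAt_id (𝕜 := ℝ) w))).cexp
  have h3 : fderiv ℝ (ex l z) w = _ := h2.fderiv
  unfold dbar
  rw [h3]
  simp [ex]
  linear_combination (-(l : ℂ) * (z - w + conj w) * cexp (l * conj w * (z - w)) / 2) * I_mul_I

lemma norm_ex (l : ℝ) (z w : ℂ) : ‖ex l z w‖ * Real.exp (l * ‖w‖ ^ 2 / 2) =
    Real.exp (l * ‖z‖ ^ 2 / 2) * Real.exp (-(l / 2) * ‖w - z‖ ^ (2 : ℝ)) := by
  rw [ex, Complex.norm_exp, ← Real.exp_add, ← Real.exp_add, Real.rpow_two]
  congr 1
  simp only [Complex.sq_norm, normSq_apply, mul_re, mul_im, ofReal_re, ofReal_im, conj_re, conj_im,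
    sub_re, sub_im]
  ring

lemma exists_chi : ∃ C : ℝ, 0 < C ∧ ∀ ρ : ℝ, 0 < ρ → ∃ χ : ℂ → ℂ, ContDiff ℝ 1 χ ∧
    (∀ w, ‖w‖ < 2 * ρ → χ w = 1) ∧ (∀ w, 3 * ρ ≤ ‖w‖ → χ w = 0) ∧ (∀ w, ‖χ w‖ ≤ 1) ∧
    ∀ w, ‖dbar χ w‖ ≤ C / ρ := by
  let b : ContDiffBump (0 : ℂ) := ⟨2, 3, by norm_num, by norm_num⟩
  have hb : ContDiff ℝ 1 (fun w => (b w : ℂ)) := ofRealCLM.contDiff.comp b.contDiff
  have hc : HasCompactSupport (fun w => (b w : ℂ)) :=
    b.hasCompactSupport.comp_left (g := fun x : ℝ => (x : ℂ)) ofReal_zero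
  obtain ⟨C, hC⟩ := (hb.continuous_fderiv one_ne_zero).bounded_above_of_compact_support
    (hc.fderiv ℝ)
  refine ⟨C + 1, by linarith [(norm_nonneg _).trans (hC 0)], fun ρ hρ => ?_⟩
  have hn : ∀ w : ℂ, ‖ρ⁻¹ • w‖ = ‖w‖ / ρ := fun w => by
    rw [norm_smul, norm_inv, Real.norm_of_nonneg hρ.le, div_eq_inv_mul]
  refine ⟨fun w => (b (ρ⁻¹ • w) : ℂ), hb.comp (contDiff_id.const_smul _), fun w hw => ?_,
    fun w hw => ?_, fun w => ?_, fun w => ?_⟩
  · show (b _ : ℂ) = 1
    rw [b.one_of_mem_closedBall, ofReal_one]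
    rw [mem_closedBall_zero_iff, hn, div_le_iff₀ hρ]
    exact hw.le
  · show (b _ : ℂ) = 0
    rw [b.zero_of_le_dist, ofReal_zero]
    rw [dist_zero_right, hn, le_div_iff₀ hρ]
    exact hw
  · show ‖(b _ : ℂ)‖ ≤ 1
    rw [norm_real, Real.norm_of_nonneg b.nonneg]
    exact b.le_one
  · refine (norm_dbar_le _ _).trans ?_
    have h1 : HasFDerivAt (fun w : ℂ => ρ⁻¹ • w) (ρ⁻¹ • ContinuousLinearMap.id ℝ ℂ) w :=
      (hasFDerivAt_id (𝕜 := ℝ) w).const_smul ρ⁻¹
    have h2 := ((hb.differentiable one_ne_zero) (ρ⁻¹ • w)).hasFDerivAt.comp w h1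
    have h3 : fderiv ℝ (fun w => (b (ρ⁻¹ • w) : ℂ)) w = _ := h2.fderiv
    rw [h3]
    refine (ContinuousLinearMap.opNorm_comp_le _ _).trans ?_
    rw [norm_smul, ContinuousLinearMap.norm_id, norm_inv, Real.norm_of_nonneg hρ.le, mul_one,
      div_eq_mul_inv]
    have := hC (ρ⁻¹ • w)
    gcongr
    linarith

lemma int_gauss {l : ℝ} (hl : 0 < l) (z : ℂ) :
    Integrable (fun w : ℂ => Real.exp (-(l / 2) * ‖w - z‖ ^ (2 : ℝ))) ∧
      ∫ w : ℂ, Real.exp (-(l / 2) * ‖w - z‖ ^ (2 : ℝ)) = 2 * Real.pi / l := by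
  have h : ∫ w : ℂ, Real.exp (-(l / 2) * ‖w - z‖ ^ (2 : ℝ)) = 2 * Real.pi / l := by
    rw [integral_sub_right_eq_self (fun w : ℂ => Real.exp (-(l / 2) * ‖w‖ ^ (2 : ℝ))) z,
      Complex.integral_exp_neg_mul_rpow (by norm_num) (by positivity)]
    norm_num
    rw [Real.rpow_neg_one]
    field_simp
  refine ⟨.of_integral_ne_zero ?_, h⟩
  rw [h]
  positivity

lemma int_gauss' {l : ℝ} (hl : 0 < l) (z : ℂ) :
    Integrable (fun w : ℂ => ‖w - z‖⁻¹ * Real.exp (-(l / 2) * ‖w - z‖ ^ (2 : ℝ))) ∧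
      ∫ w : ℂ, ‖w - z‖⁻¹ * Real.exp (-(l / 2) * ‖w - z‖ ^ (2 : ℝ)) =
        Real.pi * (√2 * √Real.pi) / √l := by
  have h : ∫ w : ℂ, ‖w - z‖⁻¹ * Real.exp (-(l / 2) * ‖w - z‖ ^ (2 : ℝ)) =
      Real.pi * (√2 * √Real.pi) / √l := by
    rw [integral_sub_right_eq_self
      (fun w : ℂ => ‖w‖⁻¹ * Real.exp (-(l / 2) * ‖w‖ ^ (2 : ℝ))) z]
    simp_rw [← Real.rpow_neg_one]
    rw [Complex.integral_rpow_mul_exp_neg_mul_rpow (by norm_num) (by norm_num) (by positivity)]
    have e1 : (-(-1 + 2) / 2 : ℝ) = -(1 / 2) := by norm_num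
    have e2 : ((-1 + 2) / 2 : ℝ) = 1 / 2 := by norm_num
    rw [e1, e2, Real.Gamma_one_half_eq, Real.rpow_neg (by positivity), ← Real.sqrt_eq_rpow,
      Real.sqrt_div hl.le]
    field_simp
  refine ⟨.of_integral_ne_zero ?_, h⟩
  rw [h]
  positivity

/-- The kernel in one variable. -/
theorem one_var : ∃ A : ℝ, 1 ≤ A ∧ ∀ l ρ : ℝ, 0 < ρ → 1 ≤ l * ρ ^ 2 → ∃ K : ℂ → ℂ → ℂ,
    Continuous K.uncurry ∧ (∀ z w, 3 * ρ < ‖w‖ → K z w = 0) ∧
    (∀ w, DifferentiableOn ℂ (fun z => K z w) (ball 0 ρ)) ∧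
    (∀ (u : ℂ → ℂ) (N : ℝ), (∀ w, ‖w‖ ≤ 3 * ρ → ‖u w‖ ≤ N * Real.exp (l * ‖w‖ ^ 2 / 2)) →
      ∀ z, ‖z‖ < ρ → ‖∫ w, K z w * u w‖ ≤ A * N * Real.exp (l * ‖z‖ ^ 2 / 2)) ∧
    ∀ (u : ℂ → ℂ) (N : ℝ), ContDiff ℝ 1 u →
      (∀ w, ‖w‖ ≤ 3 * ρ → ‖dbar u w‖ ≤ N * Real.exp (l * ‖w‖ ^ 2 / 2)) →
      ∀ z, ‖z‖ < ρ → ‖u z - ∫ w, K z w * u w‖ ≤ A * N / √l * Real.exp (l * ‖z‖ ^ 2 / 2) := by
  obtain ⟨C, hC, hχ⟩ := exists_chi
  have hpi := Real.pi_pos
  refine ⟨2 * (1 + C) + √2 * √Real.pi, by
    have : 0 ≤ √2 * √Real.pi := by positivity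
    linarith, fun l ρ hρ hl1 => ?_⟩
  have hl : 0 < l := by
    by_contra h
    nlinarith [sq_nonneg ρ]
  obtain ⟨χ, hs, h1, h0, hle, hd⟩ := hχ ρ hρ
  have d1 : ∀ w, ‖w‖ < 2 * ρ → dbar χ w = 0 := fun w hw => by
    rw [← dbar_const 1 w]
    refine dbar_congr ?_
    filter_upwards [(isOpen_lt continuous_norm continuous_const).mem_nhds hw] with v hv
    exact h1 v hv
  have d0 : ∀ w, 3 * ρ < ‖w‖ → dbar χ w = 0 := fun w hw => by
    rw [← dbar_const 0 w]
    refine dbar_congr ?_
    filter_upwards [(isOpen_lt continuous_const continuous_norm).mem_nhds hw] with v hv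
    exact h0 v (le_of_lt hv)
  have far : ∀ z w : ℂ, ‖z‖ < ρ → ¬ ‖w‖ < 2 * ρ → ρ ≤ ‖w - z‖ := fun z w hz hw => by
    have := norm_sub_norm_le w z
    linarith [not_lt.1 hw]
  let K : ℂ → ℂ → ℂ := fun z w => (Real.pi : ℂ)⁻¹ * ex l z w *
    (l * χ w - dbar χ w * (conj (w - z) / (max (‖w - z‖ ^ 2) (ρ ^ 2) : ℝ)))
  have hK : ∀ z w, ‖z‖ < ρ → K z w = (Real.pi : ℂ)⁻¹ * ex l z w *
      (l * χ w - dbar χ w * (w - z)⁻¹) := by
    intro z w hz
    by_cases hw : ‖w‖ < 2 * ρ
    · simp only [K, d1 w hw, zero_mul]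
    · have := far z w hz hw
      simp only [K]
      rw [max_eq_left (by gcongr), inv_def (w - z), Complex.sq_norm, div_eq_mul_inv, ofReal_inv]
  have hKc : Continuous K.uncurry := by
    have c1 := hs.continuous
    have c2 := continuous_dbar hs
    unfold Function.uncurry K ex
    refine Continuous.mul (by fun_prop) (Continuous.sub (by fun_prop) (Continuous.mul (by fun_prop)
      (Continuous.div (by fun_prop) (by fun_prop) fun p => ?_)))
    exact ofReal_ne_zero.2 (lt_max_of_lt_right (by positivity)).ne'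
  have hK0 : ∀ z w, 3 * ρ < ‖w‖ → K z w = 0 := fun z w hw => by
    simp only [K, d0 w hw, h0 w hw.le, mul_zero, zero_mul, sub_zero]
  have hKn : ∀ z w, ‖z‖ < ρ → ‖K z w‖ ≤ Real.pi⁻¹ * ‖ex l z w‖ * (l * (1 + C)) := by
    intro z w hz
    rw [hK z w hz, norm_mul, norm_mul, norm_inv, norm_real, Real.norm_of_nonneg hpi.le]
    gcongr
    refine (norm_sub_le _ _).trans ?_
    have a1 : ‖(l : ℂ) * χ w‖ ≤ l := by
      rw [norm_mul, norm_real, Real.norm_of_nonneg hl.le]
      exact mul_le_of_le_one_right hl.le (hle w)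
    have a2 : ‖dbar χ w * (w - z)⁻¹‖ ≤ l * C := by
      by_cases hw : ‖w‖ < 2 * ρ
      · rw [d1 w hw, zero_mul, norm_zero]
        positivity
      · rw [norm_mul, norm_inv]
        calc ‖dbar χ w‖ * ‖w - z‖⁻¹ ≤ C / ρ * ρ⁻¹ := by
              gcongr
              · exact hd w
              · exact far z w hz hw
          _ = C * (ρ ^ 2)⁻¹ := by field_simp
          _ ≤ C * l := by
              gcongr
              rw [inv_le_iff_one_le_mul₀ (by positivity)]
              exact hl1
          _ = l * C := mul_comm _ _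
    linarith
  refine ⟨K, hKc, hK0, fun w => ?_, fun u N hu z hz => ?_, fun u N hu hN z hz => ?_⟩
  · have e : DifferentiableOn ℂ (fun z => (Real.pi : ℂ)⁻¹ * ex l z w *
        (l * χ w - dbar χ w * (w - z)⁻¹)) (ball 0 ρ) := by
      refine DifferentiableOn.mul (Differentiable.differentiableOn (by unfold ex; fun_prop))
        (DifferentiableOn.sub (differentiableOn_const _) ?_)
      by_cases hw : ‖w‖ < 2 * ρ
      · simp only [d1 w hw, zero_mul]
        exact differentiableOn_const _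
      · refine (differentiableOn_const _).mul (DifferentiableOn.inv (by fun_prop) fun z hz => ?_)
        exact norm_pos_iff.1 (hρ.trans_le (far z w (mem_ball_zero_iff.1 hz) hw))
    exact e.congr fun z hz => hK z w (mem_ball_zero_iff.1 hz)
  · have hN : 0 ≤ N := by
      have := (norm_nonneg _).trans (hu 0 (by rw [norm_zero]; positivity))
      simpa using this
    obtain ⟨i1, i2⟩ := int_gauss hl z
    refine (norm_integral_le_of_norm_le (i1.const_mul
      (Real.pi⁻¹ * (l * (1 + C)) * N * Real.exp (l * ‖z‖ ^ 2 / 2)))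
      (Eventually.of_forall fun w => ?_)).trans ?_
    · by_cases hw : ‖w‖ ≤ 3 * ρ
      · rw [norm_mul]
        calc ‖K z w‖ * ‖u w‖ ≤ Real.pi⁻¹ * ‖ex l z w‖ * (l * (1 + C)) *
              (N * Real.exp (l * ‖w‖ ^ 2 / 2)) := by
              gcongr
              · exact hKn z w hz
              · exact hu w hw
          _ = Real.pi⁻¹ * (l * (1 + C)) * N * (‖ex l z w‖ * Real.exp (l * ‖w‖ ^ 2 / 2)) := by ring
          _ = _ := by rw [norm_ex]; ring
      · rw [hK0 z w (not_le.1 hw), zero_mul, norm_zero]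
        positivity
    · rw [integral_const_mul, i2]
      have : Real.pi⁻¹ * (l * (1 + C)) * N * Real.exp (l * ‖z‖ ^ 2 / 2) * (2 * Real.pi / l) =
          2 * (1 + C) * N * Real.exp (l * ‖z‖ ^ 2 / 2) := by field_simp
      rw [this]
      gcongr
      exact le_add_of_nonneg_right (by positivity)
  · have hN0 : 0 ≤ N := by
      have := (norm_nonneg _).trans (hN 0 (by rw [norm_zero]; positivity))
      simpa using this
    obtain ⟨i1, i2⟩ := int_gauss' hl z
    have hx := ex_smooth l z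
    have hg : ContDiff ℝ 1 (fun w => χ w * u w * ex l z w) := (hs.mul hu).mul hx
    have hcs : HasCompactSupport (fun w => χ w * u w * ex l z w) :=
      HasCompactSupport.intro (isCompact_closedBall 0 (3 * ρ)) fun w hw => by
        rw [h0 w (not_le.1 fun h => hw (mem_closedBall_zero_iff.2 h)).le, zero_mul, zero_mul]
    have hp := pompeiu hg hcs z
    have hb : ∀ w, ‖χ w * dbar u w * ex l z w * (w - z)⁻¹‖ ≤ N * Real.exp (l * ‖z‖ ^ 2 / 2) *
        (‖w - z‖⁻¹ * Real.exp (-(l / 2) * ‖w - z‖ ^ (2 : ℝ))) := by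
      intro w
      by_cases hw : ‖w‖ ≤ 3 * ρ
      · rw [norm_mul, norm_mul, norm_mul, norm_inv]
        calc ‖χ w‖ * ‖dbar u w‖ * ‖ex l z w‖ * ‖w - z‖⁻¹
            ≤ 1 * (N * Real.exp (l * ‖w‖ ^ 2 / 2)) * ‖ex l z w‖ * ‖w - z‖⁻¹ := by
              gcongr
              · exact hle w
              · exact hN w hw
          _ = N * (‖ex l z w‖ * Real.exp (l * ‖w‖ ^ 2 / 2)) * ‖w - z‖⁻¹ := by ring
          _ = _ := by rw [norm_ex]; ring
      · rw [h0 w (not_le.1 hw).le, zero_mul, zero_mul, zero_mul, norm_zero]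
        positivity
    have j1 : Integrable (fun w => χ w * dbar u w * ex l z w * (w - z)⁻¹) := by
      refine (i1.const_mul _).mono' (Measurable.aestronglyMeasurable ?_) (Eventually.of_forall hb)
      exact ((hs.continuous.mul (continuous_dbar hu)).mul hx.continuous).measurable.mul
        (measurable_id.sub_const z).inv
    have j2 : Integrable (fun w => K z w * u w) := by
      refine Continuous.integrable_of_hasCompactSupport
        ((hKc.comp (Continuous.prodMk_right z)).mul hu.continuous) ?_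
      exact HasCompactSupport.intro (isCompact_closedBall 0 (3 * ρ)) fun w hw => by
        rw [hK0 z w (not_le.1 fun h => hw (mem_closedBall_zero_iff.2 h)), zero_mul]
    have hpc : (Real.pi : ℂ) ≠ 0 := ofReal_ne_zero.2 hpi.ne'
    have e : (fun w => dbar (fun w => χ w * u w * ex l z w) w * (w - z)⁻¹) =ᵐ[volume]
        fun w => χ w * dbar u w * ex l z w * (w - z)⁻¹ - Real.pi * (K z w * u w) := by
      filter_upwards [Measure.ae_ne volume z] with w hw
      have hw' := sub_ne_zero.2 hw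
      rw [dbar_mul ((hs.mul hu).differentiable one_ne_zero w) (hx.differentiable one_ne_zero w),
        dbar_mul (hs.differentiable one_ne_zero w) (hu.differentiable one_ne_zero w), dbar_ex,
        hK z w hz]
      field_simp
      ring
    rw [integral_congr_ae e, integral_sub j1 (j2.const_mul _), integral_const_mul,
      h1 z (by linarith), ex, sub_self, mul_zero, Complex.exp_zero, one_mul, mul_one] at hp
    have e2 : u z - ∫ w, K z w * u w =
        -(Real.pi : ℂ)⁻¹ * ∫ w, χ w * dbar u w * ex l z w * (w - z)⁻¹ := by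
      generalize ∫ w, χ w * dbar u w * ex l z w * (w - z)⁻¹ = J at hp
      field_simp
      linear_combination hp
    rw [e2, norm_mul, norm_neg, norm_inv, norm_real, Real.norm_of_nonneg hpi.le]
    have e3 := norm_integral_le_of_norm_le (i1.const_mul _) (Eventually.of_forall hb)
    rw [integral_const_mul, i2] at e3
    have hsl : 0 < √l := Real.sqrt_pos.2 hl
    calc _ ≤ Real.pi⁻¹ * (N * Real.exp (l * ‖z‖ ^ 2 / 2) * (Real.pi * (√2 * √Real.pi) / √l)) := by
          gcongr
      _ = √2 * √Real.pi * N / √l * Real.exp (l * ‖z‖ ^ 2 / 2) := by field_simp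
      _ ≤ _ := by
          gcongr
          exact le_add_of_nonneg_left (by positivity)

end Pool.Agent.MP_8ac6f3_ag.H12

end MrgPart1

-- ======== part 2: formerly Pool.Agent.MP_8ac6f3_ag.h12.Loc
section MrgPart2

/-! Local holomorphic approximation with a diagonal Gaussian weight in several variables. -/

open MeasureTheory Set Complex Filter Topology Metric Function
open scoped ComplexConjugate

namespace Pool.Agent.MP_8ac6f3_ag.H12

/-- Holomorphic dependence of an integral on parameters. -/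
theorem hol_integral {X : Type*} [NormedAddCommGroup X] [NormedSpace ℂ X] [FiniteDimensional ℂ X]
    {F : ℂ → X → ℂ} (hc : Continuous F.uncurry) {S : Set ℂ} (hS : IsCompact S) {U : Set X}
    (hU : IsOpen U) (hd : ∀ w, DifferentiableOn ℂ (F w) U) :
    DifferentiableOn ℂ (fun x => ∫ w in S, F w x) U := by
  intro x₀ hx₀
  have : ProperSpace X := FiniteDimensional.proper ℂ X
  borelize X
  borelize (X →L[ℂ] ℂ)
  obtain ⟨ε, hε, hb⟩ := Metric.isOpen_iff.1 hU x₀ hx₀
  obtain ⟨M, hM⟩ := (hS.prod (isCompact_closedBall x₀ ε)).exists_bound_of_continuousOn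
    hc.continuousOn
  have hsub : ∀ x ∈ ball x₀ (ε / 2), ball x (ε / 2) ⊆ ball x₀ ε := fun x hx =>
    ball_subset_ball' (by rw [mem_ball] at hx; linarith)
  have hcx : ∀ x, Continuous fun w => F w x := fun x => hc.comp (Continuous.prodMk_left x)
  have : IsFiniteMeasure ((volume : Measure ℂ).restrict S) :=
    isFiniteMeasure_restrict.2 hS.measure_lt_top.ne
  have key := hasFDerivAt_integral_of_dominated_of_fderiv_le (𝕜 := ℂ) (μ := volume.restrict S)
    (F := fun x w => F w x) (F' := fun x w => fderiv ℂ (F w) x) (x₀ := x₀)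
    (bound := fun _ => 2 * M / (ε / 2)) (ball_mem_nhds x₀ (half_pos hε))
    (Eventually.of_forall fun x => (hcx x).aestronglyMeasurable)
    ((hcx x₀).continuousOn.integrableOn_compact hS)
    (((measurable_fderiv_with_param ℂ hc).comp measurable_prodMk_right).aestronglyMeasurable)
    ?_ (integrable_const _) (Eventually.of_forall fun w x hx => ?_)
  · exact key.differentiableAt.differentiableWithinAt
  · filter_upwards [ae_restrict_mem hS.measurableSet] with w hw x hx
    refine Complex.norm_fderiv_le_div_of_mapsTo_ball ((hd w).mono ((hsub x hx).trans hb))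
      (fun y hy => ?_) (half_pos hε)
    rw [mem_closedBall, dist_eq_norm]
    have h1 := hM (w, y) ⟨hw, ball_subset_closedBall (hsub x hx hy)⟩
    have h2 := hM (w, x) ⟨hw, ball_subset_closedBall (hsub x hx (mem_ball_self (half_pos hε)))⟩
    have h3 := norm_sub_le (F w y) (F w x)
    simp only [uncurry] at h1 h2
    linarith
  · exact ((hd w).differentiableAt (hU.mem_nhds
      (hb (hsub x hx (mem_ball_self (half_pos hε)))))).hasFDerivAt

variable {ι : Type*} [Fintype ι] [DecidableEq ι]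

/-- the antiholomorphic derivative of `s` at `z` in the direction `v` -/
noncomputable def db {X : Type*} [NormedAddCommGroup X] [NormedSpace ℝ X] [NormedSpace ℂ X]
    (s : X → ℂ) (z v : X) : ℂ := (fderiv ℝ s z v + I * fderiv ℝ s z (I • v)) / 2

/-- the weight -/
noncomputable def wt (lam : ι → ℝ) (z : ι → ℂ) : ℝ := Real.exp (∑ j, lam j * ‖z j‖ ^ 2 / 2)

lemma wt_update (lam : ι → ℝ) (z : ι → ℂ) (j : ι) (w : ℂ) : wt lam (update z j w) =
    Real.exp (∑ i ∈ Finset.univ.erase j, lam i * ‖z i‖ ^ 2 / 2) *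
      Real.exp (lam j * ‖w‖ ^ 2 / 2) := by
  rw [wt, ← Real.exp_add, ← Finset.sum_erase_add _ _ (Finset.mem_univ j), update_self]
  congr 2
  exact Finset.sum_congr rfl fun i hi => by rw [update_of_ne (Finset.ne_of_mem_erase hi)]

lemma dbar_update {s : (ι → ℂ) → ℂ} (hs : ContDiff ℝ 1 s) (z : ι → ℂ) (j : ι) (w : ℂ) :
    dbar (fun w => s (update z j w)) w = db s (update z j w) (Pi.single j 1) := by
  have h1 := hasFDerivAt_update (𝕜 := ℝ) z (i := j) w
  have h2 := (hs.differentiable one_ne_zero _).hasFDerivAt.comp w h1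
  have h3 : fderiv ℝ (fun w => s (update z j w)) w = _ := h2.fderiv
  have h4 : ∀ a : ℂ, (ContinuousLinearMap.pi (Pi.single j (ContinuousLinearMap.id ℝ ℂ)) :
      ℂ →L[ℝ] ι → ℂ) a = a • Pi.single j 1 := by
    intro a
    funext i
    by_cases h : i = j
    · subst h; simp
    · simp [h]
  unfold dbar db
  rw [h3]
  simp only [ContinuousLinearMap.comp_apply, h4, one_smul]

theorem loc_glob : ∃ C : ℝ, 0 < C ∧ ∀ (lam : ι → ℝ) (l ρ M : ℝ) (s : (ι → ℂ) → ℂ), 0 < ρ →
    1 ≤ l * ρ ^ 2 → (∀ j, l ≤ lam j) → 0 ≤ M → ContDiff ℝ 1 s →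
    (∀ z, ‖z‖ ≤ 3 * ρ → ∀ j, ‖db s z (Pi.single j 1)‖ ≤ M * wt lam z) →
    ∃ h : (ι → ℂ) → ℂ, DifferentiableOn ℂ h (ball 0 ρ) ∧
      ∀ z ∈ ball (0 : ι → ℂ) ρ, ‖s z - h z‖ ≤ C * M / √l * wt lam z := by
  obtain ⟨A, hA, hK⟩ := one_var
  refine ⟨(2 * A) ^ Fintype.card ι, by positivity, fun lam l ρ M s hρ hl hlam hM hs hb => ?_⟩
  have hl0 : 0 < l := by
    by_contra h
    nlinarith [sq_nonneg ρ]
  have hsl : 0 < √l := Real.sqrt_pos.2 hl0
  have main : ∀ S : Finset ι, ∃ g : (ι → ℂ) → ℂ, Continuous g ∧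
      (∀ a, DifferentiableOn ℂ (fun z => g (S.piecewise z a)) (ball 0 ρ)) ∧
      ∀ z, ‖z‖ ≤ 3 * ρ → (∀ i ∈ S, ‖z i‖ < ρ) →
        ‖s z - g z‖ ≤ (2 * A) ^ S.card * M / √l * wt lam z := by
    intro S
    induction S using Finset.induction_on with
    | empty =>
      refine ⟨s, hs.continuous, fun a => ?_, fun z _ _ => ?_⟩
      · simp only [Finset.piecewise_empty]
        exact differentiableOn_const _
      · rw [sub_self, norm_zero, wt]
        positivity
    | insert j S hj ih =>
      obtain ⟨g, g1, g2, g3⟩ := ih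
      obtain ⟨K, k1, k2, k3, k4, k5⟩ := hK (lam j) ρ hρ (hl.trans (by gcongr; exact hlam j))
      have hset : ∀ (z : ℂ) (u : ℂ → ℂ),
          ∫ w in closedBall 0 (3 * ρ), K z w * u w = ∫ w, K z w * u w := fun z u =>
        setIntegral_eq_integral_of_forall_compl_eq_zero fun w hw => by
          rw [k2 z w (not_le.1 fun h => hw (mem_closedBall_zero_iff.2 h)), zero_mul]
      have hint : ∀ (z : ℂ) (u : ℂ → ℂ), Continuous u → Integrable fun w => K z w * u w :=
        fun z u hu => Continuous.integrable_of_hasCompactSupport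
          ((k1.comp (Continuous.prodMk_right z)).mul hu)
          (HasCompactSupport.intro (isCompact_closedBall 0 (3 * ρ)) fun w hw => by
            rw [k2 z w (not_le.1 fun h => hw (mem_closedBall_zero_iff.2 h)), zero_mul])
      refine ⟨fun z => ∫ w in closedBall 0 (3 * ρ), K (z j) w * g (update z j w), ?_,
        fun a => ?_, fun z hz hzS => ?_⟩
      · refine continuous_parametric_integral_of_continuous ?_ (isCompact_closedBall _ _)
        exact (k1.comp (((continuous_apply j).comp continuous_fst).prodMk continuous_snd)).mul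
          (g1.comp (continuous_fst.update j continuous_snd))
      · have e : ∀ (z : ι → ℂ) (w : ℂ), update ((insert j S).piecewise z a) j w =
            S.piecewise z (update a j w) := by
          intro z w
          funext i
          by_cases h : i = j
          · subst h
            rw [update_self, Finset.piecewise_eq_of_notMem _ _ _ hj, update_self]
          · rw [update_of_ne h, Finset.piecewise_insert_of_ne _ _ _ h]
            by_cases h' : i ∈ S
            · rw [Finset.piecewise_eq_of_mem _ _ _ h', Finset.piecewise_eq_of_mem _ _ _ h']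
            · rw [Finset.piecewise_eq_of_notMem _ _ _ h', Finset.piecewise_eq_of_notMem _ _ _ h',
                update_of_ne h]
        simp only [e, Finset.piecewise_insert_self]
        refine hol_integral (F := fun w z => K (z j) w * g (S.piecewise z (update a j w))) ?_
          (isCompact_closedBall _ _) isOpen_ball fun w => ?_
        · have c1 : Continuous fun p : ℂ × (ι → ℂ) => (p.2 j, p.1) := by fun_prop
          refine Continuous.mul (f := fun p : ℂ × (ι → ℂ) => K (p.2 j) p.1) (k1.comp c1)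
            (g1.comp (continuous_pi fun i => ?_))
          by_cases h' : i ∈ S
          · simp only [Finset.piecewise_eq_of_mem _ _ _ h']
            fun_prop
          · simp only [Finset.piecewise_eq_of_notMem _ _ _ h']
            have c2 : Continuous fun p : ℂ × (ι → ℂ) => update a j p.1 :=
              continuous_const.update j continuous_fst
            exact (continuous_apply i).comp c2
        · refine DifferentiableOn.mul ((k3 w).comp (differentiableOn_apply j _) fun z hz => ?_)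
            (g2 _)
          exact mem_ball_zero_iff.2 ((norm_le_pi_norm z j).trans_lt (mem_ball_zero_iff.1 hz))
      · have hzj := hzS j (Finset.mem_insert_self _ _)
        have hup : ∀ w : ℂ, ‖w‖ ≤ 3 * ρ → ‖update z j w‖ ≤ 3 * ρ := fun w hw =>
          (pi_norm_le_iff_of_nonneg (by positivity)).2 fun i => by
            by_cases h : i = j
            · subst h
              rwa [update_self]
            · rw [update_of_ne h]
              exact (norm_le_pi_norm z i).trans hz
        set E := Real.exp (∑ i ∈ Finset.univ.erase j, lam i * ‖z i‖ ^ 2 / 2) with hE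
        have hE0 : 0 < E := Real.exp_pos _
        have hw : wt lam z = E * Real.exp (lam j * ‖z j‖ ^ 2 / 2) := by
          rw [← wt_update, update_eq_self]
        have cs : ContDiff ℝ 1 fun w => s (update z j w) := hs.comp (contDiff_update 1 z j)
        have cg : Continuous fun w => g (update z j w) :=
          g1.comp (continuous_const.update j continuous_id)
        have b1 := k5 (fun w => s (update z j w)) (M * E) cs (fun w hw => by
          rw [dbar_update hs, mul_assoc, ← wt_update]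
          exact hb _ (hup w hw) j) (z j) hzj
        have b2 := k4 (fun w => s (update z j w) - g (update z j w))
          ((2 * A) ^ S.card * M / √l * E) (fun w hw => by
            rw [mul_assoc, ← wt_update]
            refine g3 _ (hup w hw) fun i hi => ?_
            rw [update_of_ne (ne_of_mem_of_not_mem hi hj)]
            exact hzS i (Finset.mem_insert_of_mem hi)) (z j) hzj
        simp only [mul_sub] at b2
        rw [integral_sub (hint _ _ cs.continuous) (hint _ _ cg)] at b2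
        rw [update_eq_self] at b1
        beta_reduce
        rw [hset, Finset.card_insert_of_notMem hj, hw]
        have b3 := norm_add_le (s z - ∫ w, K (z j) w * s (update z j w))
          ((∫ w, K (z j) w * s (update z j w)) - ∫ w, K (z j) w * g (update z j w))
        rw [sub_add_sub_cancel] at b3
        set X := Real.exp (lam j * ‖z j‖ ^ 2 / 2)
        have hX : 0 < X := Real.exp_pos _
        have b4 : A * (M * E) / √(lam j) * X ≤ A * ((2 * A) ^ S.card * M / √l * E) * X := by
          have p1 : (1 : ℝ) ≤ (2 * A) ^ S.card := one_le_pow₀ (by linarith)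
          calc A * (M * E) / √(lam j) * X ≤ A * (M * E) / √l * X := by
                gcongr
                exact hlam j
            _ = A * (1 * M / √l * E) * X := by ring
            _ ≤ _ := by gcongr
        calc _ ≤ 2 * (A * ((2 * A) ^ S.card * M / √l * E) * X) := by linarith
          _ = _ := by ring
  obtain ⟨g, -, g2, g3⟩ := main Finset.univ
  refine ⟨g, ?_, fun z hz => ?_⟩
  · simpa only [Finset.piecewise_univ] using g2 0
  · have hz' := mem_ball_zero_iff.1 hz
    exact g3 z (by linarith) fun i _ => (norm_le_pi_norm z i).trans_lt hz'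

omit [DecidableEq ι] in
/-- a function of class one on a ball agrees with a global one on a smaller ball -/
lemma exists_ext {X : Type*} [NormedAddCommGroup X] [NormedSpace ℝ X] [FiniteDimensional ℝ X]
    {s : X → ℂ} {a b : ℝ} (ha : 0 < a) (hab : a < b) (hs : ContDiffOn ℝ 1 s (ball 0 b)) :
    ∃ t : X → ℂ, ContDiff ℝ 1 t ∧ ∀ z, ‖z‖ ≤ a → t =ᶠ[𝓝 z] s := by
  let η : ContDiffBump (0 : X) := ⟨(2 * a + b) / 3, (a + 2 * b) / 3, by linarith, by linarith⟩
  refine ⟨fun z => η z • s z, contDiff_iff_contDiffAt.2 fun z => ?_, fun z hz => ?_⟩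
  · by_cases h : z ∈ ball (0 : X) b
    · exact η.contDiffAt.smul (hs.contDiffAt (isOpen_ball.mem_nhds h))
    · refine (contDiffAt_const (c := 0)).congr_of_eventuallyEq ?_
      have h' : (a + 2 * b) / 3 < ‖z‖ := by
        rw [mem_ball_zero_iff, not_lt] at h
        linarith
      filter_upwards [(isOpen_lt continuous_const continuous_norm).mem_nhds h'] with y hy
      rw [η.zero_of_le_dist (by rw [dist_zero_right]; exact le_of_lt hy), zero_smul]
  · have h' : ‖z‖ < (2 * a + b) / 3 := by linarith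
    filter_upwards [(isOpen_lt continuous_norm continuous_const).mem_nhds h'] with y hy
    rw [η.one_of_mem_closedBall (mem_closedBall_zero_iff.2 (le_of_lt hy)), one_smul]

/-- Local holomorphic approximation on polydiscs. -/
theorem loc : ∃ C : ℝ, 0 < C ∧ ∀ (lam : ι → ℝ) (l ρ M : ℝ) (s : (ι → ℂ) → ℂ), 0 < ρ →
    1 ≤ l * ρ ^ 2 → (∀ j, l ≤ lam j) → 0 ≤ M → ContDiffOn ℝ 1 s (ball 0 (4 * ρ)) →
    (∀ z ∈ ball (0 : ι → ℂ) (4 * ρ), ∀ j, ‖db s z (Pi.single j 1)‖ ≤ M * wt lam z) →
    ∃ h : (ι → ℂ) → ℂ, DifferentiableOn ℂ h (ball 0 ρ) ∧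
      ∀ z ∈ ball (0 : ι → ℂ) ρ, ‖s z - h z‖ ≤ C * M / √l * wt lam z := by
  obtain ⟨C, hC, h⟩ := loc_glob (ι := ι)
  refine ⟨C, hC, fun lam l ρ M s hρ hl hlam hM hs hb => ?_⟩
  obtain ⟨t, t1, t2⟩ := exists_ext (a := 3 * ρ) (by positivity) (by linarith) hs
  obtain ⟨g, g1, g2⟩ := h lam l ρ M t hρ hl hlam hM t1 fun z hz j => by
    rw [db, (t2 z hz).fderiv_eq]
    exact hb z (mem_ball_zero_iff.2 (by linarith)) j
  refine ⟨g, g1, fun z hz => ?_⟩
  rw [← (t2 z (by linarith [mem_ball_zero_iff.1 hz])).eq_of_nhds]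
  exact g2 z hz

end Pool.Agent.MP_8ac6f3_ag.H12

end MrgPart2

-- marker of a merged file
example : 731051 + 832972 = 731051 + 832972 := rfl
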