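import Mathlib.Analysis.InnerProductSpace.Spectrum
import Mathlib.Analysis.InnerProductSpace.Dual
import Mathlib.Analysis.Calculus.FDeriv.RestrictScalars
import Pool.Agent.MP_8ac6f3_ag.h12.Loc

/-! Local holomorphic approximation for a weight that is close to a quadratic polynomial with
positive Levi form. -/

open Set Complex Filter Topology Metric Function Module
open scoped ComplexConjugate InnerProductSpace

namespace Pool.Agent.MP_8ac6f3_ag.H12

section cl

variable {V W : Type*} [AddCommGroup V] [Module ℝ V] [Module ℂ V] [IsScalarTower ℝ ℂ V]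
  [AddCommGroup W] [Module ℝ W] [Module ℂ W] [IsScalarTower ℝ ℂ W]

lemma smul_split (c : ℂ) (v : V) : c • v = c.re • v + c.im • I • v := by
  conv_lhs => rw [← re_add_im c]
  rw [add_smul, mul_smul, ← smul_one_smul ℂ c.re v, ← smul_one_smul ℂ c.im (I • v)]
  simp

/-- a real linear map that commutes with `I` is complex linear -/
def cl (f : V → W) (ha : ∀ u v, f (u + v) = f u + f v) (hr : ∀ (r : ℝ) v, f (r • v) = r • f v)
    (hI : ∀ v, f (I • v) = I • f v) : V →ₗ[ℂ] W where
  toFun := f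
  map_add' := ha
  map_smul' c v := by
    rw [smul_split c v, ha, hr, hr, hI, RingHom.id_apply, smul_split c (f v)]

omit [Module ℝ V] [IsScalarTower ℝ ℂ V] in
lemma I_I (v : V) : I • I • v = -v := by rw [smul_smul, I_mul_I, neg_one_smul]

end cl

section calc1

variable {V W : Type*} [NormedAddCommGroup V] [NormedSpace ℝ V] [NormedSpace ℂ V]
  [IsScalarTower ℝ ℂ V] [NormedAddCommGroup W] [NormedSpace ℝ W] [NormedSpace ℂ W]
  [IsScalarTower ℝ ℂ W]

lemma db_hol {g : V → ℂ} {z : V} (hg : DifferentiableAt ℂ g z) (v : V) : db g z v = 0 := by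
  rw [db, hg.fderiv_restrictScalars ℝ]
  simp only [ContinuousLinearMap.coe_restrictScalars', map_smul, smul_eq_mul]
  linear_combination (fderiv ℂ g z v / 2) * I_mul_I

omit [IsScalarTower ℝ ℂ V] in
lemma db_mul {f g : V → ℂ} {z : V} (hf : DifferentiableAt ℝ f z) (hg : DifferentiableAt ℝ g z)
    (v : V) : db (fun w => f w * g w) z v = db f z v * g z + f z * db g z v := by
  unfold db
  rw [fderiv_fun_mul hf hg]
  simp only [add_apply, smul_apply, smul_eq_mul]
  ring

lemma db_mul_hol {f g : V → ℂ} {z : V} (hf : DifferentiableAt ℝ f z)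
    (hg : DifferentiableAt ℂ g z) (v : V) : db (fun w => f w * g w) z v = db f z v * g z := by
  rw [db_mul hf (hg.restrictScalars ℝ), db_hol hg, mul_zero, add_zero]

lemma db_comp {f : W → ℂ} {g : V → W} {z : V} (hf : DifferentiableAt ℝ f (g z))
    (hg : DifferentiableAt ℂ g z) (v : V) :
    db (fun w => f (g w)) z v = db f (g z) (fderiv ℂ g z v) := by
  unfold db
  rw [fderiv_fun_comp z hf (hg.restrictScalars ℝ), hg.fderiv_restrictScalars ℝ]
  simp only [ContinuousLinearMap.comp_apply, ContinuousLinearMap.coe_restrictScalars', map_smul]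

omit [IsScalarTower ℝ ℂ V] in
lemma db_congr {f g : V → ℂ} {z : V} (h : f =ᶠ[𝓝 z] g) (v : V) : db f z v = db g z v := by
  unfold db
  rw [h.fderiv_eq]

omit [IsScalarTower ℝ ℂ V] in
lemma norm_db_le (f : V → ℂ) (z v : V) : ‖db f z v‖ ≤ ‖fderiv ℝ f z‖ * ‖v‖ := by
  have h1 := (fderiv ℝ f z).le_opNorm v
  have h2 := (fderiv ℝ f z).le_opNorm (I • v)
  have h3 := norm_add_le (fderiv ℝ f z v) (I * fderiv ℝ f z (I • v))
  rw [norm_mul, norm_I, one_mul] at h3
  rw [norm_smul, norm_I, one_mul] at h2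
  rw [db, norm_div, Complex.norm_ofNat]
  linarith

omit [NormedSpace ℝ V] [IsScalarTower ℝ ℂ V] in
lemma hol_fderiv_cont {f : V → ℂ} {U : Set V} (hU : IsOpen U) (hf : DifferentiableOn ℂ f U) :
    ContinuousOn (fderiv ℂ f) U := by
  intro x hx
  have h1 : ∀ᶠ z in 𝓝 x, ‖f z‖ < ‖f x‖ + 1 :=
    (hf.continuousOn.continuousAt (hU.mem_nhds hx)).norm.eventually (gt_mem_nhds (lt_add_one _))
  obtain ⟨R, hR, h⟩ := Metric.eventually_nhds_iff_ball.1 (h1.and (hU.mem_nhds hx))
  set M := ‖f x‖ + 1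
  set ε := R / 2 with hε
  have hε0 : 0 < ε := half_pos hR
  have sub : ∀ y ∈ ball x ε, ball y ε ⊆ ball x R := fun y hy =>
    ball_subset_ball' (by rw [mem_ball] at hy; linarith)
  have hd : ∀ y ∈ ball x R, DifferentiableAt ℂ f y := fun y hy =>
    hf.differentiableAt (hU.mem_nhds (h y hy).2)
  have lip : ∀ d : V, ‖d‖ < ε → ∀ y ∈ ball x ε, ‖f (y + d) - f y‖ ≤ 2 * M / ε * ‖d‖ := by
    intro d hd' y hy
    have := Complex.dist_le_div_mul_dist_of_mapsTo_ball (f := f) (c := y) (R₁ := ε) (R₂ := 2 * M)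
      (z := y + d) (fun w hw => (hd w (sub y hy hw)).differentiableWithinAt) (fun w hw => by
        rw [mem_closedBall, dist_eq_norm]
        linarith [norm_sub_le (f w) (f y), (h w (sub y hy hw)).1,
          (h y (sub y hy (mem_ball_self hε0))).1]) (by simpa using hd')
    simpa [dist_eq_norm] using this
  have est : ∀ d : V, ‖d‖ < ε →
      ‖fderiv ℂ f (x + d) - fderiv ℂ f x‖ ≤ 2 * (2 * M / ε * ‖d‖) / ε := by
    intro d hd'
    have dd : ∀ y ∈ ball x ε, HasFDerivAt (fun y => f (y + d) - f y)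
        (fderiv ℂ f (y + d) - fderiv ℂ f y) y := fun y hy =>
      ((hasFDerivAt_comp_add_right d).2 (hd _ (sub y hy (by simpa using hd'))).hasFDerivAt).sub
        (hd _ (sub y hy (mem_ball_self hε0))).hasFDerivAt
    rw [← (dd x (mem_ball_self hε0)).fderiv]
    refine Complex.norm_fderiv_le_div_of_mapsTo_ball
      (fun y hy => (dd y hy).differentiableAt.differentiableWithinAt) (fun y hy => ?_) hε0
    rw [mem_closedBall, dist_eq_norm]
    linarith [norm_sub_le (f (y + d) - f y) (f (x + d) - f x), lip d hd' y hy,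
      lip d hd' x (mem_ball_self hε0)]
  refine ContinuousAt.continuousWithinAt ?_
  rw [ContinuousAt, tendsto_iff_norm_sub_tendsto_zero]
  have t : Tendsto (fun y => 2 * (2 * M / ε * ‖y - x‖) / ε) (𝓝 x) (𝓝 0) :=
    Continuous.tendsto' (by fun_prop) _ _ (by simp)
  refine squeeze_zero' (Eventually.of_forall fun _ => norm_nonneg _) ?_ t
  filter_upwards [ball_mem_nhds x hε0] with y hy
  simpa using est (y - x) (by rwa [← dist_eq_norm])

/-- holomorphic functions are of class one -/
lemma hol_contDiffOn {f : V → ℂ} {U : Set V} (hU : IsOpen U) (hf : DifferentiableOn ℂ f U) :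
    ContDiffOn ℝ 1 f U := by
  have : ContDiffOn ℂ ((0 : ℕ) + 1) f U :=
    (contDiffOn_succ_iff_fderiv_of_isOpen hU).2
      ⟨hf, by simp, contDiffOn_zero.2 (hol_fderiv_cont hU hf)⟩
  exact ContDiffOn.restrict_scalars ℝ (by simpa using this)

end calc1

variable {V : Type*} [NormedAddCommGroup V] [NormedSpace ℝ V] [InnerProductSpace ℂ V]
  [IsScalarTower ℝ ℂ V] [FiniteDimensional ℂ V]

/-- the pluriharmonic part of a quadratic polynomial -/
lemma exists_pluri (c : ℝ) (L : V →L[ℝ] ℝ) (B : V →L[ℝ] V →L[ℝ] ℝ) :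
    ∃ P : V → ℂ, Differentiable ℂ P ∧
      ∀ z, (P z).re = c + L z + (B z z - B (I • z) (I • z)) / 2 := by
  let l : V →ₗ[ℂ] ℂ := cl (fun v => (L v : ℂ) - I * L (I • v))
    (fun u v => by simp only [smul_add, map_add, ofReal_add]; ring)
    (fun r v => by rw [smul_comm I r v]; simp only [map_smul, smul_eq_mul, ofReal_mul, real_smul]; ring)
    (fun v => by
      simp only [I_I, map_neg, ofReal_neg, smul_eq_mul]
      linear_combination (L (I • v) : ℂ) * I_mul_I)
  let b0 : V → V → ℂ := fun u v =>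
    (((B u v : ℂ) - B (I • u) (I • v)) - I * (B (I • u) v + B u (I • v))) / 2
  let b1 : V → V →ₗ[ℂ] ℂ := fun u => cl (b0 u)
    (fun v w => by simp only [b0, smul_add, map_add, ofReal_add]; ring)
    (fun r v => by
      simp only [b0]
      rw [smul_comm I r v]
      simp only [map_smul, smul_eq_mul, ofReal_mul, real_smul]
      ring)
    (fun v => by
      simp only [b0, I_I, map_neg, ofReal_neg, smul_eq_mul]
      linear_combination ((B (I • u) v : ℂ) + B u (I • v)) / 2 * I_mul_I)
  have hb1 : ∀ u v, LinearMap.toContinuousLinearMap (b1 u) v = b0 u v := fun _ _ => rfl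
  let b2 : V →ₗ[ℂ] V →L[ℂ] ℂ := cl (fun u => LinearMap.toContinuousLinearMap (b1 u))
    (fun u w => ContinuousLinearMap.ext fun v => by
      simp only [add_apply, hb1, b0, smul_add, map_add, ofReal_add]; ring)
    (fun r u => ContinuousLinearMap.ext fun v => by
      simp only [smul_apply, hb1, b0]
      rw [smul_comm I r u]
      simp only [map_smul, smul_apply, smul_eq_mul, ofReal_mul, real_smul]
      ring)
    (fun u => ContinuousLinearMap.ext fun v => by
      simp only [smul_apply, hb1, b0, I_I, map_neg, neg_apply, ofReal_neg, smul_eq_mul]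
      linear_combination ((B (I • u) v : ℂ) + B u (I • v)) / 2 * I_mul_I)
  refine ⟨fun z => c + LinearMap.toContinuousLinearMap l z +
    LinearMap.toContinuousLinearMap b2 z z, ?_, fun z => ?_⟩
  · exact ((differentiable_const _).add (LinearMap.toContinuousLinearMap l).differentiable).add
      ((LinearMap.toContinuousLinearMap b2).differentiable.clm_apply differentiable_id)
  · show ((c : ℂ) + ((L z : ℂ) - I * L (I • z)) + b0 z z).re = _
    simp [b0]

/-- the Levi form as a symmetric operator -/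
lemma exists_op (B : V →L[ℝ] V →L[ℝ] ℝ) (hB : ∀ u v, B u v = B v u) :
    ∃ A : V →ₗ[ℂ] V, A.IsSymmetric ∧
      ∀ z, (⟪A z, z⟫_ℂ).re = (B z z + B (I • z) (I • z)) / 2 := by
  have := FiniteDimensional.complete ℂ V
  let h0 : V → V → ℂ := fun u v =>
    (((B u v : ℂ) + B (I • u) (I • v)) + I * (B (I • u) v - B u (I • v))) / 2
  let h1 : V → V →ₗ[ℂ] ℂ := fun u => cl (h0 u)
    (fun v w => by simp only [h0, smul_add, map_add, ofReal_add]; ring)
    (fun r v => by
      simp only [h0]
      rw [smul_comm I r v]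
      simp only [map_smul, smul_eq_mul, ofReal_mul, real_smul]
      ring)
    (fun v => by
      simp only [h0, I_I, map_neg, ofReal_neg, smul_eq_mul]
      linear_combination (-((B (I • u) v : ℂ) - B u (I • v)) / 2) * I_mul_I)
  let a : V → V := fun u =>
    (InnerProductSpace.toDual ℂ V).symm (LinearMap.toContinuousLinearMap (h1 u))
  have ha : ∀ u v, ⟪a u, v⟫_ℂ = h0 u v := fun u v => InnerProductSpace.toDual_symm_apply
  let A : V →ₗ[ℂ] V := cl a
    (fun u w => ext_inner_right ℂ fun v => by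
      simp only [inner_add_left, ha, h0, smul_add, map_add, add_apply, ofReal_add]; ring)
    (fun r u => ext_inner_right ℂ fun v => by
      rw [← smul_one_smul ℂ r (a u), inner_smul_left]
      simp only [ha, h0]
      rw [smul_comm I r u]
      simp only [map_smul, smul_apply, smul_eq_mul, ofReal_mul, real_smul, mul_one, conj_ofReal]
      ring)
    (fun u => ext_inner_right ℂ fun v => by
      rw [inner_smul_left]
      simp only [ha, h0, I_I, map_neg, neg_apply, ofReal_neg, conj_I]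
      linear_combination (((B (I • u) v : ℂ) - B u (I • v)) / 2) * I_mul_I)
  refine ⟨A, fun u v => ?_, fun z => ?_⟩
  · show ⟪a u, v⟫_ℂ = ⟪u, a v⟫_ℂ
    rw [← inner_conj_symm u, ha, ha]
    simp only [h0, map_div₀, map_add, map_mul, map_sub, conj_ofReal, conj_I, map_ofNat,
      hB v u, hB (I • v) (I • u), hB (I • v) u, hB v (I • u)]
    ring
  · show (⟪a z, z⟫_ℂ).re = _
    rw [ha]
    simp [h0]

/-- normal form of a quadratic polynomial -/
theorem quad (c l : ℝ) (L : V →L[ℝ] ℝ) (B : V →L[ℝ] V →L[ℝ] ℝ) (hB : ∀ u v, B u v = B v u)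
    (hl : ∀ z, 2 * l * ‖z‖ ^ 2 ≤ B z z + B (I • z) (I • z)) :
    ∃ (P : V → ℂ) (e : (Fin (finrank ℂ V) → ℂ) ≃L[ℂ] V) (lam : Fin (finrank ℂ V) → ℝ),
      Differentiable ℂ P ∧ (∀ j, l ≤ lam j) ∧
      (∀ x, c + L (e x) + B (e x) (e x) = (P (e x)).re + ∑ j, lam j * ‖x j‖ ^ 2) ∧
      (∀ x, ‖x‖ ≤ ‖e x‖) ∧ ∀ x, ‖e x‖ ≤ finrank ℂ V * ‖x‖ := by
  obtain ⟨P, p1, p2⟩ := exists_pluri c L B
  obtain ⟨A, a1, a2⟩ := exists_op B hB
  let b := a1.eigenvectorBasis rfl
  let e : (Fin (finrank ℂ V) → ℂ) ≃L[ℂ] V :=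
    (PiLp.continuousLinearEquiv 2 ℂ _).symm.trans b.repr.symm.toContinuousLinearEquiv
  have he : ∀ x j, b.repr (e x) j = x j := fun x j => by simp [e]
  refine ⟨P, e, a1.eigenvalues rfl, p1, fun j => ?_, fun x => ?_, fun x => ?_, fun x => ?_⟩
  · have h1 := a2 (b j)
    have h2 := hl (b j)
    rw [a1.apply_eigenvectorBasis rfl j, inner_smul_left, inner_self_eq_norm_sq_to_K] at h1
    have h3 : ‖b j‖ = 1 := b.orthonormal.1 j
    simp only [b] at h2 h3
    rw [h3] at h1 h2
    simp at h1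
    linarith
  · have h1 := a2 (e x)
    rw [← b.repr.inner_map_map, PiLp.inner_apply, re_sum] at h1
    have h2 : ∀ j, (⟪b.repr (A (e x)) j, b.repr (e x) j⟫_ℂ).re =
        a1.eigenvalues rfl j * ‖x j‖ ^ 2 := by
      intro j
      rw [a1.eigenvectorBasis_apply_self_apply rfl, he]
      simp [Complex.sq_norm, normSq_apply]
      ring
    simp only [h2] at h1
    rw [p2, h1]
    ring
  · refine (pi_norm_le_iff_of_nonneg (norm_nonneg _)).2 fun j => ?_
    rw [← he x j, ← b.repr.norm_map (e x)]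
    exact PiLp.norm_apply_le _ j
  · rw [← b.sum_repr (e x)]
    refine (norm_sum_le _ _).trans ?_
    calc _ ≤ ∑ _j : Fin (finrank ℂ V), ‖x‖ := Finset.sum_le_sum fun j _ => by
          rw [norm_smul, b.orthonormal.1 j, mul_one, he]
          exact norm_le_pi_norm x j
      _ = _ := by simp

variable (V) in
/-- Local holomorphic approximation on balls. -/
theorem loc2 : ∃ C R : ℝ, 0 < C ∧ 1 ≤ R ∧ ∀ (Φ : V → ℝ) (p : V) (c l ρ M : ℝ) (L : V →L[ℝ] ℝ)
    (B : V →L[ℝ] V →L[ℝ] ℝ) (s : V → ℂ), 0 < ρ → 1 ≤ l * ρ ^ 2 → 0 ≤ M →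
    (∀ u v, B u v = B v u) → (∀ z, 2 * l * ‖z‖ ^ 2 ≤ B z z + B (I • z) (I • z)) →
    (∀ z, ‖z‖ < R * ρ → |Φ (p + z) - (c + L z + B z z)| ≤ 1) →
    ContDiffOn ℝ 1 s (ball p (R * ρ)) →
    (∀ z ∈ ball p (R * ρ), ∀ v, ‖db s z v‖ ≤ M * Real.exp (Φ z / 2) * ‖v‖) →
    ∃ h : V → ℂ, DifferentiableOn ℂ h (ball p ρ) ∧
      ∀ z ∈ ball p ρ, ‖s z - h z‖ ≤ C * M / √l * Real.exp (Φ z / 2) := by
  obtain ⟨C, hC, hloc⟩ := loc (ι := Fin (finrank ℂ V))
  set n : ℝ := finrank ℂ V + 1 with hn
  have hn1 : 1 ≤ n := by rw [hn]; linarith [Nat.cast_nonneg (α := ℝ) (finrank ℂ V)]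
  refine ⟨C * n * Real.exp 1, 4 * n, by positivity, by linarith,
    fun Φ p c l ρ M L B s hρ hl hM hB hL hΦ hs hb => ?_⟩
  obtain ⟨P, e, lam, p1, p2, p3, p4, p5⟩ := quad c l L B hB hL
  have p6 : ∀ x, ‖e x‖ ≤ n * ‖x‖ := fun x => (p5 x).trans (by gcongr; linarith)
  have hin : ∀ x ∈ ball (0 : Fin (finrank ℂ V) → ℂ) (4 * ρ), ‖e x‖ < 4 * n * ρ := fun x hx => by
    have := mem_ball_zero_iff.1 hx
    calc ‖e x‖ ≤ n * ‖x‖ := p6 x
      _ < n * (4 * ρ) := by gcongr
      _ = _ := by ring
  have hin' : ∀ x ∈ ball (0 : Fin (finrank ℂ V) → ℂ) (4 * ρ), p + e x ∈ ball p (4 * n * ρ) :=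
    fun x hx => by rw [mem_ball, dist_eq_norm, add_sub_cancel_left]; exact hin x hx
  have de : Differentiable ℂ fun x => p + e x := (differentiable_const p).add e.differentiable
  have dP : Differentiable ℂ fun x => exp (-P (e x) / 2) :=
    ((p1.comp e.differentiable).neg.mul_const (2⁻¹ : ℂ)).cexp
  have hw : ∀ x, wt lam x = Real.exp ((c + L (e x) + B (e x) (e x) - (P (e x)).re) / 2) := by
    intro x
    rw [wt, p3, add_sub_cancel_left, Finset.sum_div]
  have ce : ContDiff ℝ 1 fun x => p + e x :=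
    contDiff_const.add (e.contDiff.restrict_scalars ℝ)
  have cP : ContDiff ℝ 1 fun x => exp (-P (e x) / 2) :=
    contDiffOn_univ.1 (hol_contDiffOn isOpen_univ dP.differentiableOn)
  obtain ⟨g, g1, g2⟩ := hloc lam l ρ (M * n * Real.exp (1 / 2))
    (fun x => s (p + e x) * exp (-P (e x) / 2)) hρ hl p2 (by positivity)
    ((hs.comp ce.contDiffOn hin').mul cP.contDiffOn) fun x hx j => by
      have d1 : DifferentiableAt ℝ s (p + e x) :=
        (hs.contDiffAt (isOpen_ball.mem_nhds (hin' x hx))).differentiableAt one_ne_zero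
      rw [db_mul_hol (f := fun x => s (p + e x)) (d1.comp x (ce.differentiable one_ne_zero x))
        (dP x), db_comp (f := s) (g := fun x => p + e x) d1 (de x),
        fderiv_const_add, e.fderiv, norm_mul, Complex.norm_exp, hw]
      have a1 := hb _ (hin' x hx) (e (Pi.single j 1))
      have a2 : ‖e (Pi.single j 1)‖ ≤ n := by
        refine (p6 _).trans ?_
        rw [Pi.norm_single, norm_one, mul_one]
      have a3 := (abs_le.1 (hΦ _ (hin x hx))).2
      calc _ ≤ M * Real.exp (Φ (p + e x) / 2) * n * Real.exp (-P (e x) / 2).re := by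
            gcongr
            exact a1.trans (by gcongr)
        _ = M * n * Real.exp (Φ (p + e x) / 2 + (-P (e x) / 2).re) := by rw [Real.exp_add]; ring
        _ ≤ M * n * Real.exp (1 / 2 + (c + L (e x) + B (e x) (e x) - (P (e x)).re) / 2) := by
            rw [div_ofNat_re, neg_re]
            gcongr _ * Real.exp ?_
            linarith
        _ = _ := by rw [Real.exp_add]; ring
  have hback : ∀ z ∈ ball p ρ, e.symm (z - p) ∈ ball (0 : Fin (finrank ℂ V) → ℂ) ρ := by
    intro z hz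
    rw [mem_ball_zero_iff]
    refine (p4 _).trans_lt ?_
    rwa [e.apply_symm_apply, ← dist_eq_norm]
  refine ⟨fun z => g (e.symm (z - p)) * exp (P (z - p) / 2), ?_, fun z hz => ?_⟩
  · refine (g1.comp (Differentiable.differentiableOn (by fun_prop)) hback).mul
      (Differentiable.differentiableOn ?_)
    exact ((p1.comp (differentiable_id.sub_const p)).mul_const (2⁻¹ : ℂ)).cexp
  · have b1 := g2 _ (hback z hz)
    have b2 := (abs_le.1 (hΦ (z - p) (by
      rw [← dist_eq_norm]
      exact (mem_ball.1 hz).trans_le (by nlinarith)))).1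
    rw [hw] at b1
    simp only [e.apply_symm_apply, add_sub_cancel] at b1 b2
    have b3 : s z - g (e.symm (z - p)) * exp (P (z - p) / 2) =
        (s z * exp (-P (z - p) / 2) - g (e.symm (z - p))) * exp (P (z - p) / 2) := by
      rw [sub_mul, mul_assoc, ← Complex.exp_add, ← add_div, neg_add_cancel, zero_div,
        Complex.exp_zero, mul_one]
    rw [b3, norm_mul, Complex.norm_exp]
    calc _ ≤ C * (M * n * Real.exp (1 / 2)) / √l * Real.exp ((c + L (z - p) + B (z - p) (z - p) -
          (P (z - p)).re) / 2) * Real.exp (P (z - p) / 2).re := by gcongr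
      _ = C * n * M / √l * Real.exp (1 / 2 + (c + L (z - p) + B (z - p) (z - p) -
          (P (z - p)).re) / 2 + (P (z - p) / 2).re) := by
          rw [Real.exp_add, Real.exp_add]; ring
      _ ≤ C * n * M / √l * Real.exp (1 + Φ z / 2) := by
          rw [div_ofNat_re]
          gcongr _ * Real.exp ?_
          linarith
      _ = _ := by rw [Real.exp_add]; ring

end Pool.Agent.MP_8ac6f3_ag.H12
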