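import Mathlib.Analysis.Calculus.FDeriv.Symmetric
import Pool.Agent.MP_8ac6f3_ag.Calc
import Pool.Agent.MP_8ac6f3_ag.h12.Quad

/-! Holomorphic approximation on a small ball with the weight `exp (f / 2)`. -/

open Set Complex Metric Module

namespace Pool.Agent.MP_8ac6f3_ag.H12

variable {M : Type} [NormedAddCommGroup M] [NormedSpace ℝ M] [NormedSpace ℂ M]
  [IsScalarTower ℝ ℂ M] [FiniteDimensional ℂ M]

theorem a2 : A2Stmt M := by
  let V := EuclideanSpace ℂ (Fin (finrank ℂ M))
  let T : V ≃L[ℂ] M := ContinuousLinearEquiv.ofFinrankEq (by simp [V])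
  obtain ⟨C, R, hC, hR, hloc⟩ := loc2 V
  set a : ℝ := 1 + ‖(T : V →L[ℂ] M)‖ + ‖(T.symm : M →L[ℂ] V)‖ with ha
  have n1 := norm_nonneg (T : V →L[ℂ] M)
  have n2 := norm_nonneg (T.symm : M →L[ℂ] V)
  have a1 : 1 ≤ a := by linarith
  have t1 : ∀ v, ‖T v‖ ≤ a * ‖v‖ := fun v =>
    ((T : V →L[ℂ] M).le_opNorm v).trans (by gcongr; linarith)
  have t2 : ∀ m, ‖T.symm m‖ ≤ a * ‖m‖ := fun m =>
    ((T.symm : M →L[ℂ] V).le_opNorm m).trans (by gcongr; linarith)
  have a2 : 1 ≤ a ^ 2 := one_le_pow₀ a1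
  have hD : 0 < C * a ^ 2 := by positivity
  refine ⟨3 * R * a ^ 2 + C * a ^ 2, by nlinarith,
    fun f x ρ l K N s hρ hl hN hlρ hK hf hf3 hlev hs hb => ?_⟩
  set D := 3 * R * a ^ 2 + C * a ^ 2 with hDD
  have hD0 : 0 < D := by positivity
  have hx : x ∈ ball x (D * ρ) := mem_ball_self (by positivity)
  have hK0 : 0 ≤ K := (norm_nonneg _).trans (hf3 x hx)
  have hin : ∀ z : V, ‖z‖ < R * (3 * a * ρ) → ‖T z‖ < D * ρ := fun z hz =>
    calc ‖T z‖ ≤ a * ‖z‖ := t1 z
      _ < a * (R * (3 * a * ρ)) := by gcongr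
      _ = 3 * R * a ^ 2 * ρ := by ring
      _ ≤ _ := by gcongr; linarith
  have hin' : ∀ z ∈ ball (0 : V) (R * (3 * a * ρ)), x + T z ∈ ball x (D * ρ) := fun z hz => by
    rw [mem_ball, dist_eq_norm, add_sub_cancel_left]
    exact hin z (mem_ball_zero_iff.1 hz)
  let S : V →L[ℝ] M := (T : V →L[ℂ] M).restrictScalars ℝ
  have hS : ∀ v, S v = T v := fun _ => rfl
  have sym : IsSymmSndFDerivAt ℝ f x :=
    (hf.contDiffAt (isOpen_ball.mem_nhds hx)).isSymmSndFDerivAt (by simp; norm_num)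
  have de : Differentiable ℂ fun v : V => x + T v := (differentiable_const x).add T.differentiable
  have ce : ContDiff ℝ 1 fun v : V => x + T v := contDiff_const.add S.contDiff
  obtain ⟨g, g1, g2⟩ := hloc (fun v => f (x + T v)) 0 (f x) (l / a ^ 2) (3 * a * ρ) (N * a)
    ((fderiv ℝ f x).comp S) ((1 / 2 : ℝ) • (fderiv ℝ (fderiv ℝ f) x).bilinearComp S S)
    (fun v => s (x + T v)) (by positivity)
    (by
      rw [show l / a ^ 2 * (3 * a * ρ) ^ 2 = 9 * (l * ρ ^ 2) by field_simp; ring]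
      linarith)
    (by positivity)
    (fun u v => by
      simp only [smul_apply, ContinuousLinearMap.bilinearComp_apply]
      rw [sym.eq])
    (fun z => by
      have h1 := hlev (T z)
      have h2 := t2 (T z)
      rw [T.symm_apply_apply] at h2
      have h3 : l / a ^ 2 * ‖z‖ ^ 2 ≤ l * ‖T z‖ ^ 2 :=
        calc _ ≤ l / a ^ 2 * (a * ‖T z‖) ^ 2 := by gcongr
          _ = _ := by field_simp
      simp only [smul_apply, ContinuousLinearMap.bilinearComp_apply, hS, map_smul, smul_eq_mul]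
      simp only [lev, d2] at h1
      linarith)
    (fun z hz => by
      have h1 := taylor3 hf hf3 (hin z hz)
      have h2 : K * ‖T z‖ ^ 3 ≤ K * (D * ρ) ^ 3 := by
        gcongr
        exact (hin z hz).le
      simp only [smul_apply, ContinuousLinearMap.bilinearComp_apply, hS, smul_eq_mul, zero_add,
        ContinuousLinearMap.comp_apply]
      simp only [d2] at h1
      rw [abs_le] at h1 ⊢
      constructor <;> linarith [h1.1, h1.2])
    (hs.comp ce.contDiffOn hin')
    (fun z hz v => by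
      have d1 : DifferentiableAt ℝ s (x + T z) :=
        (hs.contDiffAt (isOpen_ball.mem_nhds (hin' z hz))).differentiableAt one_ne_zero
      rw [db_comp (f := s) (g := fun v => x + T v) d1 (de z), fderiv_const_add, T.fderiv]
      calc _ ≤ N * Real.exp (f (x + T z) / 2) * ‖T v‖ := hb _ (hin' z hz) (T v)
        _ ≤ N * Real.exp (f (x + T z) / 2) * (a * ‖v‖) := by gcongr; exact t1 v
        _ = _ := by ring)
  have hback : ∀ y ∈ ball x (3 * ρ), T.symm (y - x) ∈ ball (0 : V) (3 * a * ρ) := fun y hy => by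
    rw [mem_ball, dist_eq_norm] at hy
    rw [mem_ball_zero_iff]
    calc _ ≤ a * ‖y - x‖ := t2 _
      _ < a * (3 * ρ) := by gcongr
      _ = _ := by ring
  refine ⟨fun y => g (T.symm (y - x)),
    g1.comp (Differentiable.differentiableOn (by fun_prop)) hback, fun y hy => ?_⟩
  have b := g2 _ (hback y hy)
  simp only [T.apply_symm_apply, add_sub_cancel] at b
  refine b.trans ?_
  have hsl : 0 < √l := Real.sqrt_pos.2 hl
  rw [Real.sqrt_div hl.le, Real.sqrt_sq (by linarith)]
  gcongr ?_ * _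
  calc C * (N * a) / (√l / a) = C * a ^ 2 * N / √l := by field_simp
    _ ≤ _ := by gcongr; nlinarith

end Pool.Agent.MP_8ac6f3_ag.H12
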